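import Mathlib

/-!
# Amplitude functions of graphs (Malkoun)

Definitions: spinor choices, orientations, the amplitude of a configuration; basic invariance
(phases, orientation) and a formula in terms of un-normalised spinors.
-/

open scoped BigOperators

namespace Pool.Agent.U803.Amp

/-- Euclidean 3-space. -/
abbrev R3 := EuclideanSpace ℝ (Fin 3)

/-- First Pauli matrix. -/
def sigma1 : Matrix (Fin 2) (Fin 2) ℂ := !![0, 1; 1, 0]
/-- Second Pauli matrix. -/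
def sigma2 : Matrix (Fin 2) (Fin 2) ℂ := !![0, -Complex.I; Complex.I, 0]
/-- Third Pauli matrix. -/
def sigma3 : Matrix (Fin 2) (Fin 2) ℂ := !![1, 0; 0, -1]

/-- `u·σ = u₁σ₁ + u₂σ₂ + u₃σ₃`. -/
noncomputable def dotSigma (u : R3) : Matrix (Fin 2) (Fin 2) ℂ :=
  ((u 0 : ℝ) : ℂ) • sigma1 + ((u 1 : ℝ) : ℂ) • sigma2 + ((u 2 : ℝ) : ℂ) • sigma3

/-- The unit vector `(b - a)/‖b - a‖`. -/
noncomputable def unitDir (a b : R3) : R3 := ‖b - a‖⁻¹ • (b - a)

/-- `ω(a,b) = a₁b₂ - a₂b₁`. -/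
def om (a b : Fin 2 → ℂ) : ℂ := a 0 * b 1 - a 1 * b 0

/-- `x ∈ C_G(ℝ³)`: adjacent vertices are at different points. -/
def Admissible {V : Type} (G : SimpleGraph V) (x : V → R3) : Prop :=
  ∀ i j, G.Adj i j → x i ≠ x j

/-- `ψ` chooses for every ordered pair `d = (i,j)` of adjacent vertices a unit vector of `ℂ²` with
`(u_{ij}·σ) ψ_{ij} = ψ_{ij}`, where `u_{ij}` is the unit vector from `x i` to `x j`. -/
def IsSpinorChoice {V : Type} (G : SimpleGraph V) (x : V → R3) (ψ : G.Dart → Fin 2 → ℂ) : Prop :=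
  ∀ d : G.Dart, ‖ψ d 0‖ ^ 2 + ‖ψ d 1‖ ^ 2 = 1 ∧
    (dotSigma (unitDir (x d.fst) (x d.snd))).mulVec (ψ d) = ψ d

/-- `Δ` contains exactly one of `(i,j)`, `(j,i)` for every edge. -/
def IsOrientation {V : Type} (G : SimpleGraph V) (Δ : Finset G.Dart) : Prop :=
  ∀ d : G.Dart, (d ∈ Δ ∧ d.symm ∉ Δ) ∨ (d ∉ Δ ∧ d.symm ∈ Δ)

/-- `P_G`: the permutations of the ordered pairs of adjacent vertices preserving the first
vertex. -/
noncomputable def perms {V : Type} [Fintype V] (G : SimpleGraph V) :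
    Finset (Equiv.Perm G.Dart) := by
  classical
  exact Finset.univ.filter (fun σ => ∀ d : G.Dart, (σ d).fst = d.fst)

/-- The quotient defining the amplitude, for a given choice of spinors and orientation. -/
noncomputable def amp {V : Type} [Fintype V] (G : SimpleGraph V) (ψ : G.Dart → Fin 2 → ℂ)
    (Δ : Finset G.Dart) : ℂ :=
  (∑ σ ∈ perms G, ∏ d ∈ Δ, om (ψ (σ d)) (ψ (σ d.symm))) / ∏ d ∈ Δ, om (ψ d) (ψ d.symm)

/-- `a` is the value `A_G(x)` of the amplitude function: there are a spinor choice and an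
orientation, and every spinor choice together with every orientation gives the value `a`. -/
def IsAmplitude {V : Type} [Fintype V] (G : SimpleGraph V) (x : V → R3) (a : ℂ) : Prop :=
  (∃ (ψ : G.Dart → Fin 2 → ℂ) (Δ : Finset G.Dart), IsSpinorChoice G x ψ ∧ IsOrientation G Δ) ∧
    ∀ (ψ : G.Dart → Fin 2 → ℂ) (Δ : Finset G.Dart), IsSpinorChoice G x ψ → IsOrientation G Δ →
      amp G ψ Δ = a

/-! ### Orientations -/

variable {V : Type}

theorem orient_prod {G : SimpleGraph V} {Δ Δ' : Finset G.Dart} (hΔ : IsOrientation G Δ)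
    (hΔ' : IsOrientation G Δ') (h : G.Dart → ℂ) (hs : ∀ d, h d.symm = h d) :
    ∏ d ∈ Δ, h d = ∏ d ∈ Δ', h d := by
  classical
  refine Finset.prod_nbij' (fun d => if d ∈ Δ' then d else d.symm)
    (fun d => if d ∈ Δ then d else d.symm) ?_ ?_ ?_ ?_ ?_
  · intro d hd
    by_cases h1 : d ∈ Δ'
    · simp [h1]
    · rcases hΔ' d with h2 | h2
      · exact absurd h2.1 h1
      · simp [h1, h2.2]
  · intro d hd
    by_cases h1 : d ∈ Δ
    · simp [h1]
    · rcases hΔ d with h2 | h2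
      · exact absurd h2.1 h1
      · simp [h1, h2.2]
  · intro d hd
    by_cases h1 : d ∈ Δ'
    · simp [h1, hd]
    · have h3 : d.symm ∉ Δ := by
        rcases hΔ d with h2 | h2
        · exact h2.2
        · exact absurd hd h2.1
      simp [h1, h3]
  · intro d hd
    by_cases h1 : d ∈ Δ
    · simp [h1, hd]
    · have h3 : d.symm ∉ Δ' := by
        rcases hΔ' d with h2 | h2
        · exact h2.2
        · exact absurd hd h2.1
      simp [h1, h3]
  · intro d hd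
    by_cases h1 : d ∈ Δ'
    · simp [h1]
    · simp [h1, hs]

theorem full_prod [Fintype V] {G : SimpleGraph V} [Fintype G.Dart] {Δ : Finset G.Dart}
    (hΔ : IsOrientation G Δ) (c : G.Dart → ℂ) :
    ∏ d ∈ Δ, (c d * c d.symm) = ∏ d : G.Dart, c d := by
  classical
  rw [Finset.prod_mul_distrib, ← Finset.prod_mul_prod_compl Δ c]
  congr 1
  refine Finset.prod_nbij' (fun d => d.symm) (fun d => d.symm) ?_ ?_ ?_ ?_ ?_
  · intro d hd
    rcases hΔ d with h2 | h2
    · simpa using h2.2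
    · exact absurd hd h2.1
  · intro d hd
    rcases hΔ d with h2 | h2
    · exact absurd h2.1 (by simpa using hd)
    · exact h2.2
  · intro d hd; simp
  · intro d hd; simp
  · intro d hd; rfl

/-! ### Spinors -/

theorem dotSigma_mulVec (u : R3) (a : Fin 2 → ℂ) :
    (dotSigma u).mulVec a = ![((u 2 : ℝ) : ℂ) * a 0 + (((u 0 : ℝ) : ℂ) - ((u 1 : ℝ) : ℂ) * Complex.I) * a 1,
      (((u 0 : ℝ) : ℂ) + ((u 1 : ℝ) : ℂ) * Complex.I) * a 0 - ((u 2 : ℝ) : ℂ) * a 1] := by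
  ext i
  fin_cases i
  · simp only [dotSigma, sigma1, sigma2, sigma3, Matrix.mulVec, dotProduct, Fin.sum_univ_two,
      Matrix.add_apply, Matrix.smul_apply, smul_eq_mul, Matrix.of_apply, Matrix.cons_val',
      Matrix.cons_val_zero, Matrix.cons_val_one, Matrix.cons_val_fin_one, Fin.zero_eta]
    ring
  · simp only [dotSigma, sigma1, sigma2, sigma3, Matrix.mulVec, dotProduct, Fin.sum_univ_two,
      Matrix.add_apply, Matrix.smul_apply, smul_eq_mul, Matrix.of_apply, Matrix.cons_val',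
      Matrix.cons_val_zero, Matrix.cons_val_one, Matrix.cons_val_fin_one, Fin.mk_one]
    ring

theorem om_eq_zero_of_eigen (u : R3) (hu : (u 0) ^ 2 + (u 1) ^ 2 + (u 2) ^ 2 = 1)
    (a b : Fin 2 → ℂ) (ha : (dotSigma u).mulVec a = a) (hb : (dotSigma u).mulVec b = b) :
    om a b = 0 := by
  rw [dotSigma_mulVec] at ha hb
  have ha0 := congrFun ha 0
  have ha1 := congrFun ha 1
  have hb0 := congrFun hb 0
  have hb1 := congrFun hb 1
  simp only [Matrix.cons_val_zero, Matrix.cons_val_one] at ha0 ha1 hb0 hb1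
  have hu' : ((u 0 : ℝ) : ℂ) ^ 2 + ((u 1 : ℝ) : ℂ) ^ 2 + ((u 2 : ℝ) : ℂ) ^ 2 = 1 := by
    have h := congrArg (fun t : ℝ => (t : ℂ)) hu
    simpa using h
  have hI : Complex.I ^ 2 = -1 := Complex.I_sq
  unfold om
  set p := ((u 0 : ℝ) : ℂ)
  set q := ((u 1 : ℝ) : ℂ)
  set r := ((u 2 : ℝ) : ℂ)
  have key : 2 * (a 0 * b 1 - a 1 * b 0) = 0 := by
    have e1 : a 0 * b 1 - a 1 * b 0 =
        (r * a 0 + (p - q * Complex.I) * a 1) * ((p + q * Complex.I) * b 0 - r * b 1) -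
        ((p + q * Complex.I) * a 0 - r * a 1) * (r * b 0 + (p - q * Complex.I) * b 1) := by
      rw [ha0, ha1, hb0, hb1]
    have e2 : (r * a 0 + (p - q * Complex.I) * a 1) * ((p + q * Complex.I) * b 0 - r * b 1) -
        ((p + q * Complex.I) * a 0 - r * a 1) * (r * b 0 + (p - q * Complex.I) * b 1) =
        -(p ^ 2 - q ^ 2 * Complex.I ^ 2 + r ^ 2) * (a 0 * b 1 - a 1 * b 0) := by ring
    rw [e2, hI] at e1
    have e3 : p ^ 2 - q ^ 2 * (-1) + r ^ 2 = 1 := by linear_combination hu'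
    rw [e3] at e1
    linear_combination e1
  exact (mul_eq_zero.1 key).resolve_left two_ne_zero

theorem exists_smul_of_om_eq_zero (a b : Fin 2 → ℂ) (ha : a ≠ 0) (h : om a b = 0) :
    ∃ c : ℂ, b = c • a := by
  unfold om at h
  by_cases h0 : a 0 = 0
  · have h1 : a 1 ≠ 0 := by
      intro h1
      apply ha
      ext i
      fin_cases i
      · exact h0
      · exact h1
    refine ⟨b 1 / a 1, ?_⟩
    have hb0 : b 0 = 0 := by
      rw [h0, zero_mul, zero_sub, neg_eq_zero] at h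
      exact (mul_eq_zero.1 h).resolve_left h1
    ext i
    fin_cases i
    · simp [h0, hb0]
    · simp [h1]
  · refine ⟨b 0 / a 0, ?_⟩
    ext i
    fin_cases i
    · simp [h0]
    · simp only [Pi.smul_apply, smul_eq_mul, Fin.mk_one]
      field_simp
      linear_combination h

/-- Un-normalised spinors for all ordered pairs of adjacent vertices. -/
def IsRay (G : SimpleGraph V) (x : V → R3) (φ : G.Dart → Fin 2 → ℂ) : Prop :=
  ∀ d : G.Dart, φ d ≠ 0 ∧ (dotSigma (unitDir (x d.fst) (x d.snd))).mulVec (φ d) = φ d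

theorem unitDir_sq {a b : R3} (h : a ≠ b) :
    (unitDir a b 0) ^ 2 + (unitDir a b 1) ^ 2 + (unitDir a b 2) ^ 2 = 1 := by
  have hn : ‖unitDir a b‖ = 1 := by
    unfold unitDir
    rw [norm_smul, norm_inv, norm_norm]
    exact inv_mul_cancel₀ (norm_ne_zero_iff.2 (sub_ne_zero.2 (Ne.symm h)))
  have h2 : ‖unitDir a b‖ ^ 2 = 1 := by rw [hn]; norm_num
  rw [EuclideanSpace.norm_sq_eq, Fin.sum_univ_three] at h2
  simpa [Real.norm_eq_abs, sq_abs] using h2

theorem norm_sq_ne_zero {a : Fin 2 → ℂ} (ha : a ≠ 0) : 0 < ‖a 0‖ ^ 2 + ‖a 1‖ ^ 2 := by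
  by_contra h
  apply ha
  have h0 : ‖a 0‖ ^ 2 = 0 := by nlinarith [sq_nonneg ‖a 0‖, sq_nonneg ‖a 1‖]
  have h1 : ‖a 1‖ ^ 2 = 0 := by nlinarith [sq_nonneg ‖a 0‖, sq_nonneg ‖a 1‖]
  ext i
  fin_cases i
  · simpa using h0
  · simpa using h1

theorem exists_spinorChoice {G : SimpleGraph V} {x : V → R3} {φ : G.Dart → Fin 2 → ℂ}
    (hφ : IsRay G x φ) : ∃ ψ : G.Dart → Fin 2 → ℂ, IsSpinorChoice G x ψ := by
  refine ⟨fun d => ((Real.sqrt (‖φ d 0‖ ^ 2 + ‖φ d 1‖ ^ 2))⁻¹ : ℂ) • φ d, ?_⟩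
  intro d
  obtain ⟨h0, h1⟩ := hφ d
  have hp := norm_sq_ne_zero h0
  refine ⟨?_, ?_⟩
  · have hs : (Real.sqrt (‖φ d 0‖ ^ 2 + ‖φ d 1‖ ^ 2)) ^ 2 = ‖φ d 0‖ ^ 2 + ‖φ d 1‖ ^ 2 :=
      Real.sq_sqrt hp.le
    have hs0 : Real.sqrt (‖φ d 0‖ ^ 2 + ‖φ d 1‖ ^ 2) ≠ 0 := (Real.sqrt_pos.2 hp).ne'
    simp only [Pi.smul_apply, smul_eq_mul, norm_mul, norm_inv, Complex.norm_real, mul_pow,
      inv_pow, Real.norm_eq_abs, sq_abs]
    rw [hs]
    field_simp
  · rw [Matrix.mulVec_smul, h1]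

theorem spinor_eq_smul {G : SimpleGraph V} {x : V → R3} (hx : Admissible G x)
    {φ ψ : G.Dart → Fin 2 → ℂ} (hφ : IsRay G x φ) (hψ : IsSpinorChoice G x ψ) :
    ∃ c : G.Dart → ℂ, (∀ d, c d ≠ 0) ∧ ψ = fun d => c d • φ d := by
  have h : ∀ d : G.Dart, ∃ c : ℂ, c ≠ 0 ∧ ψ d = c • φ d := by
    intro d
    obtain ⟨h0, h1⟩ := hφ d
    obtain ⟨g0, g1⟩ := hψ d
    obtain ⟨c, hc⟩ := exists_smul_of_om_eq_zero (φ d) (ψ d) h0
      (om_eq_zero_of_eigen _ (unitDir_sq (hx _ _ d.adj)) _ _ h1 g1)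
    refine ⟨c, ?_, hc⟩
    rintro rfl
    rw [hc] at g0
    simp at g0
  choose c hc0 hc using h
  exact ⟨c, hc0, funext hc⟩

theorem om_smul (c c' : ℂ) (a b : Fin 2 → ℂ) : om (c • a) (c' • b) = (c * c') * om a b := by
  simp [om]; ring

theorem om_symm (a b : Fin 2 → ℂ) : om b a = - om a b := by
  simp [om]; ring

theorem perms_prod [Fintype V] (G : SimpleGraph V) [Fintype G.Dart] (σ : Equiv.Perm G.Dart)
    (c : G.Dart → ℂ) : ∏ d : G.Dart, c (σ d) = ∏ d : G.Dart, c d :=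
  Equiv.prod_comp σ c

/-- The main invariance statement: the amplitude can be computed from un-normalised spinors and
any orientation. -/
theorem isAmplitude_of_ray [Fintype V] {G : SimpleGraph V} {x : V → R3} (hx : Admissible G x)
    {φ : G.Dart → Fin 2 → ℂ} (hφ : IsRay G x φ) {Δ₀ : Finset G.Dart}
    (hΔ₀ : IsOrientation G Δ₀) : IsAmplitude G x (amp G φ Δ₀) := by
  classical
  refine ⟨?_, ?_⟩
  · obtain ⟨ψ, hψ⟩ := exists_spinorChoice hφ
    exact ⟨ψ, Δ₀, hψ, hΔ₀⟩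
  · intro ψ Δ hψ hΔ
    obtain ⟨c, hc0, rfl⟩ := spinor_eq_smul hx hφ hψ
    have key : ∀ (χ : G.Dart → Fin 2 → ℂ) (D : Finset G.Dart), amp G χ D =
        ∑ σ ∈ perms G, ∏ d ∈ D, om (χ (σ d)) (χ (σ d.symm)) / om (χ d) (χ d.symm) := by
      intro χ D
      unfold amp
      rw [Finset.sum_div]
      refine Finset.sum_congr rfl ?_
      intro σ _
      rw [Finset.prod_div_distrib]
    rw [key, key]
    refine Finset.sum_congr rfl ?_
    intro σ _
    have hsymm : ∀ d : G.Dart,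
        om (φ (σ d.symm)) (φ (σ d.symm.symm)) / om (φ d.symm) (φ d.symm.symm) =
        om (φ (σ d)) (φ (σ d.symm)) / om (φ d) (φ d.symm) := by
      intro d
      rw [SimpleGraph.Dart.symm_symm, om_symm (φ (σ d)), om_symm (φ d), neg_div_neg_eq]
    rw [← orient_prod hΔ hΔ₀ (fun d => om (φ (σ d)) (φ (σ d.symm)) / om (φ d) (φ d.symm)) hsymm]
    have e1 : ∀ d : G.Dart, om (c (σ d) • φ (σ d)) (c (σ d.symm) • φ (σ d.symm)) /
        om (c d • φ d) (c d.symm • φ d.symm) =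
        ((c (σ d) * c (σ d.symm)) / (c d * c d.symm)) *
          (om (φ (σ d)) (φ (σ d.symm)) / om (φ d) (φ d.symm)) := by
      intro d
      rw [om_smul, om_smul, mul_div_mul_comm]
    simp only [e1]
    rw [Finset.prod_mul_distrib, Finset.prod_div_distrib]
    have e2 : ∏ d ∈ Δ, (c (σ d) * c (σ d.symm)) = ∏ d : G.Dart, c d := by
      rw [← perms_prod G σ c]
      -- `d ↦ c (σ d)` over the orientation
      exact full_prod hΔ (fun d => c (σ d))
    have e3 : ∏ d ∈ Δ, (c d * c d.symm) = ∏ d : G.Dart, c d := full_prod hΔ c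
    rw [e2, e3, div_self (Finset.prod_ne_zero_iff.2 (fun d _ => hc0 d)), one_mul]

/-- An eigenvector for the unnormalised direction. -/
theorem ray_of_eigen {a b : R3} {L : ℝ} (hL : 0 < L) {φ : Fin 2 → ℂ} (hφ : φ ≠ 0)
    (h : (dotSigma (b - a)).mulVec φ = (L : ℂ) • φ) :
    (dotSigma (unitDir a b)).mulVec φ = φ := by
  -- `‖b - a‖ = L`
  have hlin : ∀ (t : ℝ) (u : R3), dotSigma (t • u) = (t : ℂ) • dotSigma u := by
    intro t u
    unfold dotSigma
    simp only [PiLp.smul_apply, smul_eq_mul, Complex.ofReal_mul, smul_add, mul_smul]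
  have hsq : ((b - a) 0) ^ 2 + ((b - a) 1) ^ 2 + ((b - a) 2) ^ 2 = L ^ 2 := by
    rw [dotSigma_mulVec] at h
    have h0 := congrFun h 0
    have h1 := congrFun h 1
    simp only [Matrix.cons_val_zero, Matrix.cons_val_one, Pi.smul_apply, smul_eq_mul] at h0 h1
    set p := (((b - a) 0 : ℝ) : ℂ) with hp
    set q := (((b - a) 1 : ℝ) : ℂ) with hq
    set r := (((b - a) 2 : ℝ) : ℂ) with hr
    have hI : Complex.I ^ 2 = -1 := Complex.I_sq
    have k0 : (p ^ 2 + q ^ 2 + r ^ 2 - (L : ℂ) ^ 2) * φ 0 = 0 := by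
      linear_combination (r + (L : ℂ)) * h0 + (p - q * Complex.I) * h1 - q ^ 2 * φ 0 * hI * (-1)
    have k1 : (p ^ 2 + q ^ 2 + r ^ 2 - (L : ℂ) ^ 2) * φ 1 = 0 := by
      linear_combination (p + q * Complex.I) * h0 + (-r + (L : ℂ)) * h1 - q ^ 2 * φ 1 * hI * (-1)
    have k : p ^ 2 + q ^ 2 + r ^ 2 - (L : ℂ) ^ 2 = 0 := by
      by_contra hne
      apply hφ
      ext i
      fin_cases i
      · exact (mul_eq_zero.1 k0).resolve_left hne
      · exact (mul_eq_zero.1 k1).resolve_left hne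
    have k' : p ^ 2 + q ^ 2 + r ^ 2 = (L : ℂ) ^ 2 := sub_eq_zero.1 k
    rw [hp, hq, hr] at k'
    exact_mod_cast k'
  have hnorm : ‖b - a‖ = L := by
    have h2 : ‖b - a‖ ^ 2 = L ^ 2 := by
      rw [EuclideanSpace.norm_sq_eq, Fin.sum_univ_three]
      simpa [Real.norm_eq_abs, sq_abs] using hsq
    exact (pow_left_inj₀ (norm_nonneg _) hL.le two_ne_zero).1 h2
  unfold unitDir
  rw [hlin, Matrix.smul_mulVec, h, hnorm, smul_smul]
  have hLc : (L : ℂ) ≠ 0 := by exact_mod_cast hL.ne'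
  have : ((L⁻¹ : ℝ) : ℂ) * (L : ℂ) = 1 := by
    rw [Complex.ofReal_inv]; exact inv_mul_cancel₀ hLc
  rw [this, one_smul]

end Pool.Agent.U803.Amp
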