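import Pool.Agent.U803.Amp.Tree

/-!
# Amplitudes of parent-array trees from Gaussian-integer data
-/

open scoped BigOperators

namespace Pool.Agent.U803.Amp

/-- `ω` over the Gaussian integers. -/
def omG (a b : GaussianInt × GaussianInt) : GaussianInt := a.1 * b.2 - a.2 * b.1

/-- Gaussian-integer spinors as complex vectors. -/
noncomputable def toC (a : GaussianInt × GaussianInt) : Fin 2 → ℂ :=
  ![GaussianInt.toComplex a.1, GaussianInt.toComplex a.2]

/-- Integer points of space. -/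
noncomputable def pt (a : ℤ × ℤ × ℤ) : R3 := !₂[(a.1 : ℝ), (a.2.1 : ℝ), (a.2.2 : ℝ)]

/-- The eigenvector equation `(w·σ) a = L a` over the Gaussian integers. -/
def EigG (w : ℤ × ℤ × ℤ) (L : ℤ) (a : GaussianInt × GaussianInt) : Prop :=
  (⟨w.2.2, 0⟩ : GaussianInt) * a.1 + (⟨w.1, -w.2.1⟩ : GaussianInt) * a.2 = ⟨L, 0⟩ * a.1 ∧
  (⟨w.1, w.2.1⟩ : GaussianInt) * a.1 - (⟨w.2.2, 0⟩ : GaussianInt) * a.2 = ⟨L, 0⟩ * a.2

instance (w : ℤ × ℤ × ℤ) (L : ℤ) (a : GaussianInt × GaussianInt) : Decidable (EigG w L a) :=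
  inferInstanceAs (Decidable (_ ∧ _))

theorem om_toC (a b : GaussianInt × GaussianInt) :
    om (toC a) (toC b) = GaussianInt.toComplex (omG a b) := by
  simp [om, toC, omG]

theorem toC_ne_zero {a : GaussianInt × GaussianInt} (ha : a ≠ 0) : toC a ≠ 0 := by
  intro h
  apply ha
  have h0 := congrFun h 0
  have h1 := congrFun h 1
  simp only [toC, Matrix.cons_val_zero, Matrix.cons_val_one, Pi.zero_apply] at h0 h1
  exact Prod.ext (GaussianInt.toComplex_eq_zero.1 h0) (GaussianInt.toComplex_eq_zero.1 h1)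

theorem eig_toC {p q : ℤ × ℤ × ℤ} {L : ℤ} {a : GaussianInt × GaussianInt}
    (h : EigG (q - p) L a) :
    (dotSigma (pt q - pt p)).mulVec (toC a) = ((L : ℝ) : ℂ) • toC a := by
  obtain ⟨h1, h2⟩ := h
  have k1 := congrArg GaussianInt.toComplex h1
  have k2 := congrArg GaussianInt.toComplex h2
  rw [dotSigma_mulVec]
  simp only [map_add, map_sub, map_mul, GaussianInt.toComplex_def, Prod.fst_sub,
    Prod.snd_sub] at k1 k2
  ext i
  fin_cases i
  · simp only [toC, pt, Fin.zero_eta, Matrix.cons_val_zero, Pi.smul_apply, smul_eq_mul,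
      PiLp.sub_apply, Matrix.cons_val_one, Matrix.cons_val_fin_one, GaussianInt.toComplex_def,
      Matrix.cons_val]
    push_cast at k1 ⊢
    linear_combination k1
  · simp only [toC, pt, Fin.mk_one, Matrix.cons_val_zero, Pi.smul_apply, smul_eq_mul,
      PiLp.sub_apply, Matrix.cons_val_one, Matrix.cons_val_fin_one, GaussianInt.toComplex_def,
      Matrix.cons_val]
    push_cast at k2 ⊢
    linear_combination k2

/-- Numerator over the Gaussian integers. -/
def numG {n : ℕ} (par : Fin n → Fin (n + 1)) (hpar : ∀ i, par i < i.succ)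
    (S : Fin (n + 1) → Fin (n + 1) → GaussianInt × GaussianInt) : GaussianInt :=
  ∑ g : (∀ i, Equiv.Perm {j // (parTree par hpar).Adj i j}),
    ∏ i : Fin n, omG (S i.succ (g i.succ ⟨par i, parTree_adj_up par hpar i⟩).1)
      (S (par i) (g (par i) ⟨i.succ, parTree_adj_dn par hpar i⟩).1)

/-- Denominator over the Gaussian integers. -/
def denG {n : ℕ} (par : Fin n → Fin (n + 1))
    (S : Fin (n + 1) → Fin (n + 1) → GaussianInt × GaussianInt) : GaussianInt :=
  ∏ i : Fin n, omG (S i.succ (par i)) (S (par i) i.succ)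

theorem data_amplitude {n : ℕ} (par : Fin n → Fin (n + 1)) (hpar : ∀ i, par i < i.succ)
    (X : Fin (n + 1) → ℤ × ℤ × ℤ) (S : Fin (n + 1) → Fin (n + 1) → GaussianInt × GaussianInt)
    (L : Fin n → ℤ)
    (hc : ∀ i : Fin n, 0 < L i ∧ S i.succ (par i) ≠ 0 ∧ S (par i) i.succ ≠ 0 ∧
      EigG (X (par i) - X i.succ) (L i) (S i.succ (par i)) ∧
      EigG (X i.succ - X (par i)) (L i) (S (par i) i.succ)) :
    Admissible (parTree par hpar) (fun i => pt (X i)) ∧
    IsAmplitude (parTree par hpar) (fun i => pt (X i))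
      (GaussianInt.toComplex (numG par hpar S) / GaussianInt.toComplex (denG par S)) := by
  have hne : ∀ i : Fin n, pt (X i.succ) ≠ pt (X (par i)) := by
    intro i h
    obtain ⟨hL, hS1, hS2, hE1, hE2⟩ := hc i
    have h1 := eig_toC hE1
    rw [h, sub_self, dotSigma_mulVec] at h1
    apply toC_ne_zero hS1
    have hLc : (((L i : ℤ) : ℝ) : ℂ) ≠ 0 := by
      have : ((L i : ℤ) : ℝ) ≠ 0 := by exact_mod_cast hL.ne'
      exact_mod_cast this
    have h0 : (((L i : ℤ) : ℝ) : ℂ) • toC (S i.succ (par i)) = 0 := by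
      rw [← h1]
      ext k
      fin_cases k <;> simp
    exact (smul_eq_zero.1 h0).resolve_left hLc
  have hadm : Admissible (parTree par hpar) (fun i => pt (X i)) := by
    rintro a b ⟨i, h | h⟩
    · rw [h.1, h.2]; exact hne i
    · rw [h.1, h.2]; exact (hne i).symm
  refine ⟨hadm, ?_⟩
  have := parTree_amplitude par hpar (fun i => pt (X i)) (fun i j => toC (S i j))
    (fun i => (L i : ℝ)) (fun i => by exact_mod_cast (hc i).1)
    (fun i => toC_ne_zero (hc i).2.1) (fun i => toC_ne_zero (hc i).2.2.1)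
    (fun i => eig_toC (hc i).2.2.2.1) (fun i => eig_toC (hc i).2.2.2.2) hadm
  convert this using 2
  · unfold numG
    rw [map_sum]
    refine Finset.sum_congr rfl ?_
    intro g _
    rw [map_prod]
    refine Finset.prod_congr rfl ?_
    intro i _
    rw [om_toC]
  · unfold denG
    rw [map_prod]
    refine Finset.prod_congr rfl ?_
    intro i _
    rw [om_toC]

theorem pt_injective : Function.Injective pt := by
  intro a b h
  have h0 := congrArg (fun v : R3 => v 0) h
  have h1 := congrArg (fun v : R3 => v 1) h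
  have h2 := congrArg (fun v : R3 => v 2) h
  simp only [pt, Matrix.cons_val_zero, Matrix.cons_val_one, Matrix.cons_val,
    Int.cast_inj] at h0 h1 h2
  exact Prod.ext h0 (Prod.ext h1 h2)

theorem pt_int (a : ℤ × ℤ × ℤ) (k : Fin 3) : ∃ z : ℤ, pt a k = (z : ℝ) := by
  fin_cases k
  · exact ⟨a.1, by simp [pt]⟩
  · exact ⟨a.2.1, by simp [pt]⟩
  · exact ⟨a.2.2, by simp [pt]⟩

/-- `ω` over the integers. -/
def omZ (a b : ℤ × ℤ) : ℤ := a.1 * b.2 - a.2 * b.1

/-- Integer spinors as Gaussian-integer spinors. -/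
def zToG (a : ℤ × ℤ) : GaussianInt × GaussianInt := ((a.1 : GaussianInt), (a.2 : GaussianInt))

theorem omG_zToG (a b : ℤ × ℤ) : omG (zToG a) (zToG b) = ((omZ a b : ℤ) : GaussianInt) := by
  simp [omG, omZ, zToG]

/-- Numerator over the integers. -/
def numZ {n : ℕ} (par : Fin n → Fin (n + 1)) (hpar : ∀ i, par i < i.succ)
    (S : Fin (n + 1) → Fin (n + 1) → ℤ × ℤ) : ℤ :=
  ∑ g : (∀ i, Equiv.Perm {j // (parTree par hpar).Adj i j}),
    ∏ i : Fin n, omZ (S i.succ (g i.succ ⟨par i, parTree_adj_up par hpar i⟩).1)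
      (S (par i) (g (par i) ⟨i.succ, parTree_adj_dn par hpar i⟩).1)

theorem numG_zToG {n : ℕ} (par : Fin n → Fin (n + 1)) (hpar : ∀ i, par i < i.succ)
    (S : Fin (n + 1) → Fin (n + 1) → ℤ × ℤ) :
    numG par hpar (fun i j => zToG (S i j)) = ((numZ par hpar S : ℤ) : GaussianInt) := by
  unfold numG numZ
  rw [Int.cast_sum]
  refine Finset.sum_congr rfl ?_
  intro g _
  rw [Int.cast_prod]
  refine Finset.prod_congr rfl ?_
  intro i _
  rw [omG_zToG]

end Pool.Agent.U803.Amp
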