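import Pool.Agent.U803.Amp.Data

/-!
# The amplitude of a path: transfer recursion
-/

open scoped BigOperators

namespace Pool.Agent.U803.Amp

/-! ### Darts of a path as `Fin (M+1) × Bool` -/

/-- Ordered pairs of adjacent vertices of the path with `M+1` edges: `(k,false)` is `(k,k+1)`,
`(k,true)` is `(k+1,k)`. -/
abbrev DD (M : ℕ) := Fin (M + 1) × Bool

/-- First vertex. -/
def vtx {M : ℕ} (d : DD M) : ℕ := if d.2 = true then d.1.1 + 1 else d.1.1

/-- The other pair with the same first vertex (if there is one). -/
def other {M : ℕ} (d : DD M) : DD M :=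
  if d.2 = true then (if h : d.1.1 + 1 < M + 1 then (⟨d.1.1 + 1, h⟩, false) else d)
  else (if 0 < d.1.1 then (⟨d.1.1 - 1, by have := d.1.2; omega⟩, true) else d)

theorem vtx_other {M : ℕ} (d : DD M) : vtx (other d) = vtx d := by
  obtain ⟨⟨k, hk⟩, b⟩ := d
  cases b
  · by_cases h : 0 < k
    · simp [vtx, other, h]; omega
    · simp [vtx, other, h]
  · by_cases h : k < M
    · simp [vtx, other, h]
    · simp [vtx, other, h]

theorem other_other {M : ℕ} (d : DD M) : other (other d) = d := by
  obtain ⟨⟨k, hk⟩, b⟩ := d
  cases b
  · by_cases h : 0 < k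
    · have h2 : k ≤ M := by omega
      have h3 : k - 1 + 1 = k := by omega
      simp [other, h, h2, h3]
    · simp [other, h]
  · by_cases h : k < M
    · simp [other, h]
    · simp [other, h]

theorem eq_or_other {M : ℕ} (d d' : DD M) (h : vtx d' = vtx d) : d' = d ∨ d' = other d := by
  obtain ⟨⟨k, hk⟩, b⟩ := d
  obtain ⟨⟨k', hk'⟩, b'⟩ := d'
  cases b <;> cases b'
  · simp only [vtx, Bool.false_eq_true, if_false] at h
    left; simp [h]
  · simp only [vtx, Bool.false_eq_true, if_false, if_true] at h
    right
    have h2 : 0 < k := by omega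
    have h3 : k' = k - 1 := by omega
    simp [other, h2, h3]
  · simp only [vtx, Bool.false_eq_true, if_false, if_true] at h
    right
    have h2 : k < M := by omega
    have h3 : k' = k + 1 := by omega
    simp [other, h2, h3]
  · simp only [vtx, if_true] at h
    left
    have : k' = k := by omega
    simp [this]

/-- Extend the bits to all vertex numbers. -/
def ext0 {M : ℕ} (b : Bool) (s : Fin M → Bool) : ℕ → Bool
  | 0 => b
  | v + 1 => if h : v < M then s ⟨v, h⟩ else false

/-- The involution swapping the two pairs at all vertices with bit `true`. -/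
def fs {M : ℕ} (t : ℕ → Bool) (d : DD M) : DD M := if t (vtx d) = true then other d else d

theorem fs_invol {M : ℕ} (t : ℕ → Bool) : Function.Involutive (fs (M := M) t) := by
  intro d
  unfold fs
  by_cases h : t (vtx d) = true
  · simp [h, vtx_other, other_other]
  · simp [h]

theorem vtx_fs {M : ℕ} (t : ℕ → Bool) (d : DD M) : vtx (fs t d) = vtx d := by
  unfold fs
  by_cases h : t (vtx d) = true
  · simp [h, vtx_other]
  · simp [h]

/-- The permutation of the pairs attached to bits at the inner vertices. -/
def permOf {M : ℕ} (s : Fin M → Bool) : Equiv.Perm (DD M) := (fs_invol (ext0 false s)).toPerm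

theorem permOf_apply {M : ℕ} (s : Fin M → Bool) (d : DD M) :
    permOf s d = fs (ext0 false s) d := rfl

theorem permOf_snd {M : ℕ} (s : Fin M → Bool) (i : Fin M) :
    (permOf s (⟨i.1 + 1, by omega⟩, false)).2 = s i := by
  rw [permOf_apply]
  unfold fs
  have h : vtx ((⟨i.1 + 1, by omega⟩, false) : DD M) = i.1 + 1 := by simp [vtx]
  rw [h]
  have h2 : ext0 false s (i.1 + 1) = s i := by simp [ext0]
  rw [h2]
  cases s i
  · simp
  · simp [other]

theorem permOf_injective {M : ℕ} : Function.Injective (permOf (M := M)) := by
  intro s s' h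
  funext i
  rw [← permOf_snd s i, ← permOf_snd s' i, h]

theorem permOf_surj {M : ℕ} (σ : Equiv.Perm (DD M)) (hσ : ∀ d, vtx (σ d) = vtx d) :
    ∃ s, permOf s = σ := by
  refine ⟨fun i => (σ (⟨i.1 + 1, by omega⟩, false)).2, ?_⟩
  apply Equiv.ext
  intro d
  rw [permOf_apply]
  unfold fs
  -- the two pairs at the vertex `v`
  have hd := eq_or_other d (σ d) (hσ d)
  rcases Nat.eq_zero_or_pos (vtx d) with h0 | hpos
  · rw [h0]
    simp only [ext0, Bool.false_eq_true, if_false]
    have : other d = d := by
      obtain ⟨⟨k, hk⟩, b⟩ := d
      cases b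
      · simp only [vtx, Bool.false_eq_true, if_false] at h0
        simp [other, h0]
      · simp [vtx] at h0
    rw [this] at hd
    rcases hd with hd | hd <;> exact hd.symm
  · obtain ⟨v, hv⟩ : ∃ v, vtx d = v + 1 := ⟨vtx d - 1, by omega⟩
    rw [hv]
    by_cases hM : v < M
    · simp only [ext0, hM, dif_pos]
      set a : DD M := (⟨v + 1, by omega⟩, false) with ha
      have hva : vtx a = v + 1 := by simp [vtx, ha]
      have hoa : (other a).2 = true := by simp [other, ha]
      have ha2 : a.2 = false := rfl
      have hane : other a ≠ a := by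
        intro h
        rw [h] at hoa
        rw [ha2] at hoa
        exact Bool.false_ne_true hoa
      have hsa := eq_or_other a (σ a) (hσ a)
      have hda := eq_or_other a d (by rw [hv, hva])
      rcases hsa with hsa | hsa
      · -- `σ a = a`
        have e1 : (σ a).2 = false := by rw [hsa]
        rw [e1]
        simp only [Bool.false_eq_true, if_false]
        rcases hda with hda | hda
        · rw [hda, hsa]
        · rcases hd with hd | hd
          · exact hd.symm
          · exfalso
            rw [hda, other_other] at hd
            have : σ (other a) = σ a := by rw [hd, hsa]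
            exact hane (σ.injective this)
      · have e1 : (σ a).2 = true := by rw [hsa, hoa]
        rw [e1]
        simp only [if_true]
        rcases hda with hda | hda
        · rw [hda, hsa]
        · rcases hd with hd | hd
          · exfalso
            rw [hda] at hd
            have : σ (other a) = σ a := by rw [hd, hsa]
            exact hane (σ.injective this)
          · exact hd.symm
    · simp only [ext0, hM, dif_neg, not_false_iff, Bool.false_eq_true, if_false]
      have : other d = d := by
        obtain ⟨⟨k, hk⟩, b⟩ := d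
        cases b
        · simp only [vtx, Bool.false_eq_true, if_false] at hv
          omega
        · simp only [vtx, if_true] at hv
          have : ¬ (k < M) := by omega
          simp [other, this]
      rw [this] at hd
      rcases hd with hd | hd <;> exact hd.symm

/-! ### Transfer recursion -/

/-- The transfer recursion. -/
def tr {R : Type} [CommRing R] (g : ℕ → Bool → Bool → R) : ℕ → ℕ → Bool → R
  | 0, j, b => g j b false
  | M + 1, j, b => g j b false * tr g M (j + 1) false + g j b true * tr g M (j + 1) true

theorem tr_map {R S : Type} [CommRing R] [CommRing S] (f : R →+* S) (g : ℕ → Bool → Bool → R)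
    (M j : ℕ) (b : Bool) :
    tr (fun k b b' => f (g k b b')) M j b = f (tr g M j b) := by
  induction M generalizing j b with
  | zero => rfl
  | succ M ih => simp only [tr, ih, map_add, map_mul]

theorem ext0_lt {M : ℕ} (b : Bool) (s : Fin M → Bool) (v : ℕ) (h : v < M) :
    ext0 b s (v + 1) = s ⟨v, h⟩ := by
  simp [ext0, h]

theorem ext0_ge {M : ℕ} (b : Bool) (s : Fin M → Bool) (v : ℕ) (h : ¬ v < M) :
    ext0 b s (v + 1) = false := by
  simp [ext0, h]

theorem sum_tr (g : ℕ → Bool → Bool → ℂ) (M j : ℕ) (b : Bool) :
    ∑ s : Fin M → Bool, ∏ k : Fin (M + 1), g (j + k) (ext0 b s k) (ext0 b s (k + 1)) =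
      tr g M j b := by
  induction M generalizing j b with
  | zero =>
    simp [tr, ext0]
  | succ M ih =>
    rw [← (Fin.consEquiv (fun _ : Fin (M + 1) => Bool)).sum_comp, Fintype.sum_prod_type,
      Fintype.sum_bool]
    have key : ∀ b' : Bool, ∑ s : Fin M → Bool, ∏ k : Fin (M + 1 + 1),
        g (j + k) (ext0 b (Fin.consEquiv (fun _ : Fin (M + 1) => Bool) (b', s)) k)
          (ext0 b (Fin.consEquiv (fun _ : Fin (M + 1) => Bool) (b', s)) (k + 1)) =
        g j b b' * tr g M (j + 1) b' := by
      intro b'
      rw [← ih, Finset.mul_sum]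
      refine Finset.sum_congr rfl ?_
      intro s _
      rw [Fin.prod_univ_succ]
      have e0 : ∀ v : ℕ, ext0 b (Fin.consEquiv (fun _ : Fin (M + 1) => Bool) (b', s)) (v + 1) =
          ext0 b' s v := by
        intro v
        cases v with
        | zero => simp [ext0]
        | succ v =>
          by_cases hv : v < M
          · have hv' : v + 1 < M + 1 := by omega
            rw [ext0_lt _ _ _ hv', ext0_lt _ _ _ hv]
            exact Fin.cons_succ (α := fun _ => Bool) b' s ⟨v, hv⟩
          · have hv' : ¬ (v + 1 < M + 1) := by omega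
            rw [ext0_ge _ _ _ hv', ext0_ge _ _ _ hv]
      have e1 : ∏ i : Fin (M + 1), g (j + ((Fin.succ i : Fin (M + 1 + 1)) : ℕ))
          (ext0 b (Fin.consEquiv (fun _ : Fin (M + 1) => Bool) (b', s)) (i.succ : Fin (M + 1 + 1)))
          (ext0 b (Fin.consEquiv (fun _ : Fin (M + 1) => Bool) (b', s))
            ((i.succ : Fin (M + 1 + 1)) + 1)) =
          ∏ k : Fin (M + 1), g (j + 1 + k) (ext0 b' s k) (ext0 b' s (k + 1)) := by
        refine Finset.prod_congr rfl ?_
        intro k _
        have e2 := e0 k
        have e3 := e0 (k + 1)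
        have e4 : j + (k.1 + 1) = j + 1 + k.1 := by omega
        rw [Fin.val_succ, e2, e3, e4]
      rw [e1]
      rfl
    rw [key true, key false]
    simp only [tr]
    ring

end Pool.Agent.U803.Amp
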