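import Pool.Agent.U803.Amp.Path

/-!
# The amplitude of a path from its spinors
-/

open scoped BigOperators

namespace Pool.Agent.U803.Amp

theorem hppar (M : ℕ) : ∀ i : Fin (M + 1), (Fin.castSucc i : Fin (M + 2)) < i.succ :=
  fun i => Fin.castSucc_lt_succ

/-- The path on `0,…,M+1` as a parent-array tree. -/
abbrev pG (M : ℕ) : SimpleGraph (Fin (M + 2)) :=
  parTree (n := M + 1) (fun i => Fin.castSucc i) (hppar M)

theorem pG_eq (M : ℕ) : pG M = SimpleGraph.pathGraph (M + 2) := by
  ext u v
  rw [SimpleGraph.pathGraph_adj]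
  constructor
  · rintro ⟨i, h | h⟩
    · right; rw [h.1, h.2]; simp
    · left; rw [h.1, h.2]; simp
  · rintro (h | h)
    · refine ⟨⟨u.1, by have := v.2; omega⟩, Or.inr ⟨?_, ?_⟩⟩
      · apply Fin.ext; simp
      · apply Fin.ext; simp [h]
    · refine ⟨⟨v.1, by have := u.2; omega⟩, Or.inl ⟨?_, ?_⟩⟩
      · apply Fin.ext; simp [h]
      · apply Fin.ext; simp

/-- The pair attached to an element of `DD M`. -/
def toDart {M : ℕ} (d : DD M) : (pG M).Dart :=
  if d.2 = true then ⟨(d.1.succ, d.1.castSucc), parTree_adj_up _ _ d.1⟩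
  else ⟨(d.1.castSucc, d.1.succ), parTree_adj_dn _ _ d.1⟩

theorem toDart_fst {M : ℕ} (d : DD M) : ((toDart d).fst : ℕ) = vtx d := by
  obtain ⟨k, b⟩ := d
  cases b <;> simp [toDart, vtx]

theorem toDart_bijective {M : ℕ} : Function.Bijective (toDart (M := M)) := by
  constructor
  · rintro ⟨k, b⟩ ⟨k', b'⟩ h
    have h1 := congrArg (fun d : (pG M).Dart => (d.fst : ℕ)) h
    have h2 := congrArg (fun d : (pG M).Dart => (d.snd : ℕ)) h
    cases b <;> cases b' <;> simp [toDart] at h1 h2
    · simp [Fin.ext_iff, h1]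
    · omega
    · omega
    · simp [Fin.ext_iff, h1]
  · intro d
    obtain ⟨i, h | h⟩ := d.adj
    · refine ⟨(i, true), ?_⟩
      apply SimpleGraph.Dart.ext
      exact Prod.ext h.1.symm h.2.symm
    · refine ⟨(i, false), ?_⟩
      apply SimpleGraph.Dart.ext
      exact Prod.ext h.1.symm h.2.symm

/-- The equivalence. -/
noncomputable def eD (M : ℕ) : DD M ≃ (pG M).Dart := Equiv.ofBijective toDart toDart_bijective

theorem eD_apply {M : ℕ} (d : DD M) : eD M d = toDart d := rfl

theorem sum_path {M : ℕ} (F : Equiv.Perm (pG M).Dart → ℂ) :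
    ∑ σ ∈ perms (pG M), F σ = ∑ s : Fin M → Bool, F ((eD M).permCongr (permOf s)) := by
  symm
  refine Finset.sum_bij (fun s _ => (eD M).permCongr (permOf s)) ?_ ?_ ?_ ?_
  · intro s _
    unfold perms
    simp only [Finset.mem_filter, Finset.mem_univ, true_and]
    intro d
    obtain ⟨x, rfl⟩ := (eD M).surjective d
    apply Fin.ext
    rw [Equiv.permCongr_apply, Equiv.symm_apply_apply, eD_apply, eD_apply, toDart_fst, toDart_fst,
      permOf_apply, vtx_fs]
  · intro s _ s' _ h
    exact permOf_injective ((eD M).permCongr.injective h)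
  · intro σ hσ
    unfold perms at hσ
    simp only [Finset.mem_filter, Finset.mem_univ, true_and] at hσ
    obtain ⟨s, hs⟩ := permOf_surj ((eD M).symm.permCongr σ) (by
      intro d
      rw [← toDart_fst, ← toDart_fst, ← eD_apply, ← eD_apply, Equiv.permCongr_apply,
        Equiv.apply_symm_apply, Equiv.symm_symm, hσ])
    refine ⟨s, Finset.mem_univ _, ?_⟩
    rw [hs]
    ext d
    simp
    simp
  · intro s _
    rfl

/-- The factor of the edge `{k,k+1}` for the bits `b`, `b'` at `k`, `k+1`. -/
noncomputable def gC (Pv Qv : ℕ → Fin 2 → ℂ) (k : ℕ) (b b' : Bool) : ℂ :=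
  om (if b' = true then Pv (k + 1) else Qv k) (if b = true then Qv (k - 1) else Pv k)

/-- Spinor of an ordered pair. -/
noncomputable def phi (Pv Qv : ℕ → Fin 2 → ℂ) {M : ℕ} (d : (pG M).Dart) : Fin 2 → ℂ :=
  if (d.fst : ℕ) < (d.snd : ℕ) then Pv d.fst else Qv d.snd

theorem phi_false (Pv Qv : ℕ → Fin 2 → ℂ) {M : ℕ} (k : Fin (M + 1)) :
    phi Pv Qv (toDart (k, false)) = Pv k := by
  simp [phi, toDart]

theorem phi_true (Pv Qv : ℕ → Fin 2 → ℂ) {M : ℕ} (k : Fin (M + 1)) :
    phi Pv Qv (toDart (k, true)) = Qv k := by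
  simp [phi, toDart]

theorem factor_eq (Pv Qv : ℕ → Fin 2 → ℂ) {M : ℕ} (s : Fin M → Bool) (k : Fin (M + 1)) :
    om (phi Pv Qv (toDart (permOf s (k, true)))) (phi Pv Qv (toDart (permOf s (k, false)))) =
      gC Pv Qv k (ext0 false s k) (ext0 false s (k + 1)) := by
  unfold gC
  congr 1
  · rw [permOf_apply]
    unfold fs
    have hv : vtx ((k, true) : DD M) = k + 1 := by simp [vtx]
    rw [hv]
    by_cases h : ext0 false s (k + 1) = true
    · have hk : (k : ℕ) < M := by
        by_contra hk
        rw [ext0_ge _ _ _ hk] at h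
        exact Bool.false_ne_true h
      rw [if_pos h, if_pos h]
      have : other ((k, true) : DD M) = (⟨k + 1, by omega⟩, false) := by
        simp [other, hk]
      rw [this, phi_false]
    · rw [if_neg h, if_neg h, phi_true]
  · rw [permOf_apply]
    unfold fs
    have hv : vtx ((k, false) : DD M) = k := by simp [vtx]
    rw [hv]
    by_cases h : ext0 false s k = true
    · have hk : 0 < (k : ℕ) := by
        by_contra hk
        have : (k : ℕ) = 0 := by omega
        rw [this] at h
        exact Bool.false_ne_true h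
      rw [if_pos h, if_pos h]
      have : other ((k, false) : DD M) = (⟨k - 1, by have := k.2; omega⟩, true) := by
        simp [other, hk]
      rw [this, phi_true]
    · rw [if_neg h, if_neg h, phi_false]

/-- The amplitude of a path in terms of its spinors. -/
theorem path_amplitude {M : ℕ} (x : Fin (M + 2) → R3) (Pv Qv : ℕ → Fin 2 → ℂ) (L : ℕ → ℝ)
    (hL : ∀ k, 0 < L k) (hP : ∀ k, Pv k ≠ 0) (hQ : ∀ k, Qv k ≠ 0)
    (h1 : ∀ k : Fin (M + 1), (dotSigma (x k.succ - x k.castSucc)).mulVec (Pv k) =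
      (L k : ℂ) • Pv k)
    (h2 : ∀ k : Fin (M + 1), (dotSigma (x k.castSucc - x k.succ)).mulVec (Qv k) =
      (L k : ℂ) • Qv k)
    (hx : Admissible (pG M) x) :
    IsAmplitude (pG M) x
      (tr (gC Pv Qv) M 0 false / ∏ k : Fin (M + 1), om (Qv k) (Pv k)) := by
  have hray : IsRay (pG M) x (fun d => phi Pv Qv d) := by
    intro d
    obtain ⟨⟨k, b⟩, rfl⟩ := (toDart_bijective (M := M)).2 d
    cases b
    · show phi Pv Qv (toDart (k, false)) ≠ 0 ∧
        (dotSigma (unitDir (x k.castSucc) (x k.succ))).mulVec (phi Pv Qv (toDart (k, false))) =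
          phi Pv Qv (toDart (k, false))
      rw [phi_false]
      exact ⟨hP k, ray_of_eigen (hL k) (hP k) (h1 k)⟩
    · show phi Pv Qv (toDart (k, true)) ≠ 0 ∧
        (dotSigma (unitDir (x k.succ) (x k.castSucc))).mulVec (phi Pv Qv (toDart (k, true))) =
          phi Pv Qv (toDart (k, true))
      rw [phi_true]
      exact ⟨hQ k, ray_of_eigen (hL k) (hQ k) (h2 k)⟩
  have := isAmplitude_of_ray hx hray (upDarts_orientation _ _)
  convert this using 1
  unfold amp
  rw [sum_path]
  congr 1
  · rw [← sum_tr]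
    refine Finset.sum_congr rfl ?_
    intro s _
    unfold upDarts
    rw [Finset.prod_map]
    refine Finset.prod_congr rfl ?_
    intro k _
    rw [Nat.zero_add, ← factor_eq]
    have e1 : ((eD M).permCongr (permOf s)) (toDart (k, true)) = toDart (permOf s (k, true)) := by
      rw [← eD_apply, Equiv.permCongr_apply, Equiv.symm_apply_apply, eD_apply]
    have e2 : ((eD M).permCongr (permOf s)) (toDart (k, false)) =
        toDart (permOf s (k, false)) := by
      rw [← eD_apply, Equiv.permCongr_apply, Equiv.symm_apply_apply, eD_apply]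
    rw [← e1, ← e2]
    rfl
  · unfold upDarts
    rw [Finset.prod_map]
    refine Finset.prod_congr rfl ?_
    intro k _
    rw [← phi_true Pv Qv k, ← phi_false Pv Qv k]
    rfl

end Pool.Agent.U803.Amp
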