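import Pool.Agent.U803.Amp.Base

/-!
# The amplitude of a tree given by a parent array
-/

open scoped BigOperators

namespace Pool.Agent.U803.Amp

variable {V : Type}

/-- Glue permutations of the neighbour sets to a permutation of the ordered pairs of adjacent
vertices. -/
def glue (G : SimpleGraph V) (g : ∀ i, Equiv.Perm {j // G.Adj i j}) : Equiv.Perm G.Dart where
  toFun d := ⟨(d.fst, (g d.fst ⟨d.snd, d.adj⟩).1), (g d.fst ⟨d.snd, d.adj⟩).2⟩
  invFun d := ⟨(d.fst, ((g d.fst).symm ⟨d.snd, d.adj⟩).1), ((g d.fst).symm ⟨d.snd, d.adj⟩).2⟩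
  left_inv d := by
    apply SimpleGraph.Dart.ext
    simp
  right_inv d := by
    apply SimpleGraph.Dart.ext
    simp

theorem glue_fst (G : SimpleGraph V) (g : ∀ i, Equiv.Perm {j // G.Adj i j}) (d : G.Dart) :
    (glue G g d).fst = d.fst := rfl

theorem glue_snd (G : SimpleGraph V) (g : ∀ i, Equiv.Perm {j // G.Adj i j}) (d : G.Dart) :
    (glue G g d).snd = (g d.fst ⟨d.snd, d.adj⟩).1 := rfl

theorem glue_injective (G : SimpleGraph V) : Function.Injective (glue G) := by
  intro g g' h
  funext i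
  apply Equiv.ext
  rintro ⟨j, hj⟩
  have := congrArg (fun σ : Equiv.Perm G.Dart => (σ ⟨(i, j), hj⟩).snd) h
  exact Subtype.ext this

theorem glue_surj (G : SimpleGraph V) (σ : Equiv.Perm G.Dart)
    (hσ : ∀ d : G.Dart, (σ d).fst = d.fst) : ∃ g, glue G g = σ := by
  have hσ' : ∀ d : G.Dart, (σ.symm d).fst = d.fst := by
    intro d
    have := hσ (σ.symm d)
    rw [Equiv.apply_symm_apply] at this
    exact this.symm
  have key : ∀ (τ : Equiv.Perm G.Dart) (hτ : ∀ d : G.Dart, (τ d).fst = d.fst) (i : V)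
      (j : {j // G.Adj i j}), G.Adj i (τ ⟨(i, j.1), j.2⟩).snd := by
    intro τ hτ i j
    have h1 := (τ ⟨(i, j.1), j.2⟩).adj
    have h2 := hτ ⟨(i, j.1), j.2⟩
    rw [h2] at h1
    exact h1
  have key2 : ∀ (τ : Equiv.Perm G.Dart) (hτ : ∀ d : G.Dart, (τ d).fst = d.fst) (i : V)
      (j : {j // G.Adj i j}), (⟨(i, (τ ⟨(i, j.1), j.2⟩).snd), key τ hτ i j⟩ : G.Dart) =
        τ ⟨(i, j.1), j.2⟩ := by
    intro τ hτ i j
    apply SimpleGraph.Dart.ext
    exact Prod.ext (hτ ⟨(i, j.1), j.2⟩).symm rfl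
  refine ⟨fun i => ⟨fun j => ⟨(σ ⟨(i, j.1), j.2⟩).snd, key σ hσ i j⟩,
    fun j => ⟨(σ.symm ⟨(i, j.1), j.2⟩).snd, key σ.symm hσ' i j⟩, ?_, ?_⟩, ?_⟩
  · intro j
    apply Subtype.ext
    show (σ.symm ⟨(i, (σ ⟨(i, j.1), j.2⟩).snd), key σ hσ i j⟩).snd = j.1
    rw [key2 σ hσ i j, Equiv.symm_apply_apply]
  · intro j
    apply Subtype.ext
    show (σ ⟨(i, (σ.symm ⟨(i, j.1), j.2⟩).snd), key σ.symm hσ' i j⟩).snd = j.1
    rw [key2 σ.symm hσ' i j, Equiv.apply_symm_apply]
  · apply Equiv.ext
    intro d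
    apply SimpleGraph.Dart.ext
    exact Prod.ext (hσ d).symm rfl

theorem sum_perms [Fintype V] [DecidableEq V] (G : SimpleGraph V) [DecidableRel G.Adj]
    (H : Equiv.Perm G.Dart → ℂ) :
    ∑ σ ∈ perms G, H σ = ∑ g : (∀ i, Equiv.Perm {j // G.Adj i j}), H (glue G g) := by
  symm
  refine Finset.sum_bij (fun g _ => glue G g) ?_ ?_ ?_ ?_
  · intro g _
    unfold perms
    simp only [Finset.mem_filter, Finset.mem_univ, true_and]
    intro d
    exact glue_fst G g d
  · intro g _ g' _ h
    exact glue_injective G h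
  · intro σ hσ
    unfold perms at hσ
    simp only [Finset.mem_filter, Finset.mem_univ, true_and] at hσ
    obtain ⟨g, hg⟩ := glue_surj G σ hσ
    exact ⟨g, Finset.mem_univ _, hg⟩
  · intro g _
    rfl

/-! ### Trees from parent arrays -/

/-- The graph on `{0,…,n}` in which vertex `i+1` is joined to `par i` (for `i < n`). -/
def parTree {n : ℕ} (par : Fin n → Fin (n + 1)) (hpar : ∀ i, par i < i.succ) :
    SimpleGraph (Fin (n + 1)) where
  Adj a b := ∃ i : Fin n, (a = i.succ ∧ b = par i) ∨ (a = par i ∧ b = i.succ)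
  symm := by
    constructor
    rintro a b ⟨i, h | h⟩
    · exact ⟨i, Or.inr ⟨h.2, h.1⟩⟩
    · exact ⟨i, Or.inl ⟨h.2, h.1⟩⟩
  loopless := by
    constructor
    rintro a ⟨i, h | h⟩
    · exact absurd (h.1.symm.trans h.2) (hpar i).ne'
    · exact absurd (h.1.symm.trans h.2) (hpar i).ne

instance {n : ℕ} (par : Fin n → Fin (n + 1)) (hpar : ∀ i, par i < i.succ) :
    DecidableRel (parTree par hpar).Adj := fun a b =>
  inferInstanceAs (Decidable (∃ i : Fin n, (a = i.succ ∧ b = par i) ∨ (a = par i ∧ b = i.succ)))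

theorem parTree_adj_up {n : ℕ} (par : Fin n → Fin (n + 1)) (hpar : ∀ i, par i < i.succ)
    (i : Fin n) : (parTree par hpar).Adj i.succ (par i) := ⟨i, Or.inl ⟨rfl, rfl⟩⟩

theorem parTree_adj_dn {n : ℕ} (par : Fin n → Fin (n + 1)) (hpar : ∀ i, par i < i.succ)
    (i : Fin n) : (parTree par hpar).Adj (par i) i.succ := ⟨i, Or.inr ⟨rfl, rfl⟩⟩

theorem parTree_reachable {n : ℕ} (par : Fin n → Fin (n + 1)) (hpar : ∀ i, par i < i.succ)
    (k : ℕ) (hk : k < n + 1) : (parTree par hpar).Reachable ⟨k, hk⟩ 0 := by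
  induction k using Nat.strong_induction_on with
  | _ k ih =>
    rcases Nat.eq_zero_or_pos k with rfl | hpos
    · exact SimpleGraph.Reachable.refl _
    · obtain ⟨j, rfl⟩ : ∃ j, k = j + 1 := ⟨k - 1, by omega⟩
      have hj : j < n := by omega
      have h1 := parTree_adj_up par hpar ⟨j, hj⟩
      have h2 := hpar ⟨j, hj⟩
      have h3 : (par ⟨j, hj⟩ : ℕ) < j + 1 := by
        have := Fin.lt_def.1 h2
        simpa using this
      exact (SimpleGraph.Adj.reachable h1).trans (ih _ h3 (par ⟨j, hj⟩).2)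

theorem parTree_isTree {n : ℕ} (par : Fin n → Fin (n + 1)) (hpar : ∀ i, par i < i.succ) :
    (parTree par hpar).IsTree := by
  rw [SimpleGraph.isTree_iff_connected_and_card]
  refine ⟨?_, ?_⟩
  · have : Nonempty (Fin (n + 1)) := ⟨0⟩
    refine SimpleGraph.Connected.mk ?_
    intro a b
    exact (parTree_reachable par hpar a.1 a.2).trans (parTree_reachable par hpar b.1 b.2).symm
  · have hbij : Function.Bijective (fun i : Fin n =>
        (⟨s(i.succ, par i), parTree_adj_up par hpar i⟩ : (parTree par hpar).edgeSet)) := by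
      constructor
      · intro i j h
        have h' : s(i.succ, par i) = s(j.succ, par j) := congrArg Subtype.val h
        rw [Sym2.eq_iff] at h'
        rcases h' with h' | h'
        · exact Fin.succ_injective _ h'.1
        · exfalso
          have h1 := hpar i
          have h2 := hpar j
          rw [h'.2] at h1
          rw [← h'.1] at h2
          exact lt_asymm h1 h2
      · rintro ⟨e, he⟩
        induction e using Sym2.ind with
        | _ a b =>
          obtain ⟨i, h | h⟩ := he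
          · refine ⟨i, Subtype.ext ?_⟩
            have ha : a = i.succ := h.1
            have hb : b = par i := h.2
            show s(i.succ, par i) = s(a, b)
            rw [ha, hb]
          · refine ⟨i, Subtype.ext ?_⟩
            have ha : a = par i := h.1
            have hb : b = i.succ := h.2
            show s(i.succ, par i) = s(a, b)
            rw [ha, hb]
            exact Sym2.eq_swap
    have := Nat.card_eq_of_bijective _ hbij
    rw [← this]
    simp

/-- The child-to-parent orientation. -/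
def upDarts {n : ℕ} (par : Fin n → Fin (n + 1)) (hpar : ∀ i, par i < i.succ) :
    Finset (parTree par hpar).Dart :=
  Finset.univ.map ⟨fun i : Fin n => ⟨(i.succ, par i), parTree_adj_up par hpar i⟩, by
    intro i j h
    have := congrArg (fun d : (parTree par hpar).Dart => d.fst) h
    exact Fin.succ_injective _ this⟩

theorem mem_upDarts {n : ℕ} (par : Fin n → Fin (n + 1)) (hpar : ∀ i, par i < i.succ)
    (d : (parTree par hpar).Dart) : d ∈ upDarts par hpar ↔ d.snd < d.fst := by
  unfold upDarts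
  simp only [Finset.mem_map, Finset.mem_univ, true_and, Function.Embedding.coeFn_mk]
  constructor
  · rintro ⟨i, rfl⟩
    exact hpar i
  · intro h
    obtain ⟨i, h1 | h1⟩ := d.adj
    · refine ⟨i, ?_⟩
      apply SimpleGraph.Dart.ext
      exact Prod.ext h1.1.symm h1.2.symm
    · exfalso
      rw [h1.1, h1.2] at h
      exact lt_asymm h (hpar i)

theorem upDarts_orientation {n : ℕ} (par : Fin n → Fin (n + 1)) (hpar : ∀ i, par i < i.succ) :
    IsOrientation _ (upDarts par hpar) := by
  intro d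
  rw [mem_upDarts, mem_upDarts]
  have hne : d.fst ≠ d.snd := d.adj.ne
  rcases lt_or_gt_of_ne hne with h | h
  · right
    exact ⟨not_lt.2 h.le, h⟩
  · left
    exact ⟨h, not_lt.2 h.le⟩

/-- The amplitude of a parent-array tree from un-normalised spinors. -/
theorem parTree_amplitude {n : ℕ} (par : Fin n → Fin (n + 1)) (hpar : ∀ i, par i < i.succ)
    (x : Fin (n + 1) → R3) (φ : Fin (n + 1) → Fin (n + 1) → Fin 2 → ℂ) (L : Fin n → ℝ)
    (hL : ∀ i, 0 < L i)
    (h1 : ∀ i, φ i.succ (par i) ≠ 0) (h2 : ∀ i, φ (par i) i.succ ≠ 0)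
    (h3 : ∀ i, (dotSigma (x (par i) - x i.succ)).mulVec (φ i.succ (par i)) =
      (L i : ℂ) • φ i.succ (par i))
    (h4 : ∀ i, (dotSigma (x i.succ - x (par i))).mulVec (φ (par i) i.succ) =
      (L i : ℂ) • φ (par i) i.succ)
    (hx : Admissible (parTree par hpar) x) :
    IsAmplitude (parTree par hpar) x
      ((∑ g : (∀ i, Equiv.Perm {j // (parTree par hpar).Adj i j}),
        ∏ i : Fin n, om (φ i.succ (g i.succ ⟨par i, parTree_adj_up par hpar i⟩).1)
          (φ (par i) (g (par i) ⟨i.succ, parTree_adj_dn par hpar i⟩).1)) /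
        ∏ i : Fin n, om (φ i.succ (par i)) (φ (par i) i.succ)) := by
  have hray : IsRay (parTree par hpar) x (fun d => φ d.fst d.snd) := by
    intro d
    obtain ⟨i, h | h⟩ := d.adj
    · show φ d.fst d.snd ≠ 0 ∧
        (dotSigma (unitDir (x d.fst) (x d.snd))).mulVec (φ d.fst d.snd) = φ d.fst d.snd
      rw [h.1, h.2]
      exact ⟨h1 i, ray_of_eigen (hL i) (h1 i) (h3 i)⟩
    · show φ d.fst d.snd ≠ 0 ∧
        (dotSigma (unitDir (x d.fst) (x d.snd))).mulVec (φ d.fst d.snd) = φ d.fst d.snd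
      rw [h.1, h.2]
      exact ⟨h2 i, ray_of_eigen (hL i) (h2 i) (h4 i)⟩
  have := isAmplitude_of_ray hx hray (upDarts_orientation par hpar)
  convert this using 1
  unfold amp
  rw [sum_perms]
  congr 1
  · refine Finset.sum_congr rfl ?_
    intro g _
    unfold upDarts
    rw [Finset.prod_map]
    rfl
  · unfold upDarts
    rw [Finset.prod_map]
    rfl

end Pool.Agent.U803.Amp
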